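import Pool.Agent.K6.H34.TT.Stm
import Pool.Agent.W261.RT.Iso
import Pool.Agent.W605.RT.PAR4

/-!
# Project TT, part PAR2: the curves with full 2-torsion are parametrised by the differences of the
roots
-/

set_option autoImplicit false

namespace Pool.Agent.K6.H35.TT

open Finset Pool.Agent.W262.RK Pool.Agent.W307.RT Pool.Agent.K6.H34.TT
open WeierstrassCurve.Affine

theorem e_eq {A B : ℤ} {x y : ℚ} :
    (E A B).toAffine.Equation x y ↔ y ^ 2 = x ^ 3 + A * x + B := by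
  rw [WeierstrassCurve.Affine.equation_iff]
  simp [E]

theorem e_negY {A B : ℤ} {x y : ℚ} : (E A B).toAffine.negY x y = -y := by
  simp [WeierstrassCurve.Affine.negY, E]

theorem two_pt {A B : ℤ} {Q : (E A B).toAffine.Point} (h2 : Q + Q = 0) (h0 : Q ≠ 0) :
    ∃ (e : ℚ) (he : (E A B).toAffine.Nonsingular e 0), Q = Point.some e 0 he := by
  rcases Q with _ | ⟨x, y, hxy⟩
  · exact absurd rfl h0
  · by_cases hy : y = (E A B).toAffine.negY x y
    · rw [e_negY] at hy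
      have : y = 0 := by linarith
      subst this
      exact ⟨x, hxy, rfl⟩
    · rw [Point.add_self_of_Y_ne hy] at h2
      exact absurd h2 (Point.some_ne_zero _)

/-- the relation between a curve and its parameters -/
def Rel2 (c ab : ℤ × ℤ) : Prop := ∃ e : ℤ, ab.1 ≠ 0 ∧ ab.2 ≠ 0 ∧ ab.1 ≠ ab.2 ∧
  3 * e = -(ab.1 + ab.2) ∧ 3 * c.1 = -(ab.1 ^ 2 - ab.1 * ab.2 + ab.2 ^ 2) ∧
  27 * c.2 = (ab.1 + ab.2) * (2 * ab.1 - ab.2) * (2 * ab.2 - ab.1)

theorem core2 {A B : ℤ} (hD : 4 * A ^ 3 + 27 * B ^ 2 ≠ 0)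
    (hT : ∃ f : ZMod 2 × ZMod 2 →+ (E A B).toAffine.Point, Function.Injective f) :
    ∃ ab, Rel2 (A, B) ab := by
  obtain ⟨f, hf⟩ := hT
  have hdd : ∀ v : ZMod 2 × ZMod 2, f v + f v = 0 := by
    intro v
    rw [← map_add]
    have : v + v = 0 := by
      revert v; decide
    rw [this, map_zero]
  have hnz : ∀ v : ZMod 2 × ZMod 2, v ≠ 0 → f v ≠ 0 := by
    intro v hv h
    apply hv
    apply hf
    rw [h, map_zero]
  obtain ⟨e1, h1, hQ1⟩ := two_pt (hdd (1, 0)) (hnz (1, 0) (by decide))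
  obtain ⟨e2, h2, hQ2⟩ := two_pt (hdd (0, 1)) (hnz (0, 1) (by decide))
  have hne : e1 ≠ e2 := by
    intro h
    subst h
    have : f (1, 0) = f (0, 1) := by rw [hQ1, hQ2]
    have h3 := hf this
    revert h3
    decide
  have q1 := e_eq.mp h1.1
  have q2 := e_eq.mp h2.1
  have r1 : e1 ^ 3 + A * e1 + B = 0 := by linarith
  have r2 : e2 ^ 3 + A * e2 + B = 0 := by linarith
  have hs : e1 ^ 2 + e1 * e2 + e2 ^ 2 + A = 0 := by
    have : (e1 - e2) * (e1 ^ 2 + e1 * e2 + e2 ^ 2 + A) = 0 := by linear_combination r1 - r2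
    exact (mul_eq_zero.mp this).resolve_left (sub_ne_zero.mpr hne)
  obtain ⟨E1, hE1⟩ := Pool.Agent.W605.RT.int_root r1
  obtain ⟨E2, hE2⟩ := Pool.Agent.W605.RT.int_root r2
  have t3 : E1 ^ 2 + E1 * E2 + E2 ^ 2 + A = 0 := by
    have : ((E1 ^ 2 + E1 * E2 + E2 ^ 2 + A : ℤ) : ℚ) = ((0 : ℤ) : ℚ) := by
      push_cast; rw [hE1, hE2]; exact hs
    exact_mod_cast this
  have t4 : E1 ^ 3 + A * E1 + B = 0 := by
    have : ((E1 ^ 3 + A * E1 + B : ℤ) : ℚ) = ((0 : ℤ) : ℚ) := by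
      push_cast; rw [hE1]; exact r1
    exact_mod_cast this
  have hA : A = -(E1 ^ 2 + E1 * E2 + E2 ^ 2) := by linarith
  have hB : B = E1 * E2 * (E1 + E2) := by
    rw [hA] at t4
    linear_combination t4
  have n12 : E1 ≠ E2 := by
    intro h
    apply hne
    rw [← hE1, ← hE2, h]
  have n13 : 2 * E1 + E2 ≠ 0 := by
    intro h
    apply hD
    have : E2 = -2 * E1 := by linarith
    rw [hA, hB, this]
    ring
  have n23 : E1 + 2 * E2 ≠ 0 := by
    intro h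
    apply hD
    have : E1 = -2 * E2 := by linarith
    rw [hA, hB, this]
    ring
  refine ⟨(E2 - E1, -2 * E1 - E2), E1, ?_, ?_, ?_, ?_, ?_, ?_⟩
  · intro h
    change E2 - E1 = 0 at h
    apply n12; linarith
  · intro h
    change -2 * E1 - E2 = 0 at h
    apply n13; linarith
  · intro h
    change E2 - E1 = -2 * E1 - E2 at h
    apply n23; linarith
  · change 3 * E1 = -(E2 - E1 + (-2 * E1 - E2))
    ring
  · change 3 * A = -((E2 - E1) ^ 2 - (E2 - E1) * (-2 * E1 - E2) + (-2 * E1 - E2) ^ 2)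
    rw [hA]; ring
  · change 27 * B = (E2 - E1 + (-2 * E1 - E2)) * (2 * (E2 - E1) - (-2 * E1 - E2)) *
      (2 * (-2 * E1 - E2) - (E2 - E1))
    rw [hB]; ring

open Classical in
/-- the parameters -/
noncomputable def F2 (c : ℤ × ℤ) : ℤ × ℤ := if h : ∃ ab, Rel2 c ab then h.choose else (0, 0)

theorem F2_rel {c : ℤ × ℤ} (h : ∃ ab, Rel2 c ab) : Rel2 c (F2 c) := by
  unfold F2
  rw [dif_pos h]
  exact h.choose_spec

theorem rel2_unique {c c' ab : ℤ × ℤ} (h : Rel2 c ab) (h' : Rel2 c' ab) : c = c' := by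
  obtain ⟨e, -, -, -, -, hA, hB⟩ := h
  obtain ⟨e', -, -, -, -, hA', hB'⟩ := h'
  apply Prod.ext
  · linarith
  · linarith

theorem rel2_bound {A B : ℤ} {ab : ℤ × ℤ} (h : Rel2 (A, B) ab) {H : ℕ} (hH : 4 * |A| ^ 3 ≤ H) :
    ab.1.natAbs ^ 6 ≤ 54 * H ∧ ab.2.natAbs ^ 6 ≤ 54 * H := by
  obtain ⟨a, b⟩ := ab
  obtain ⟨e, -, -, -, -, hA, -⟩ := h
  change 3 * A = -(a ^ 2 - a * b + b ^ 2) at hA
  have hP : 0 ≤ a ^ 2 - a * b + b ^ 2 := by nlinarith [sq_nonneg (a - b), sq_nonneg (a + b)]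
  have h1 : a ^ 2 - a * b + b ^ 2 = 3 * |A| := by
    have : |3 * A| = |-(a ^ 2 - a * b + b ^ 2)| := by rw [hA]
    rw [abs_mul, abs_neg, abs_of_nonneg hP] at this
    simpa using this.symm
  have h2 : a ^ 2 + b ^ 2 ≤ 6 * |A| := by nlinarith [sq_nonneg (a - b)]
  have key : ∀ x : ℤ, x ^ 2 ≤ 6 * |A| → x.natAbs ^ 6 ≤ 54 * H := by
    intro x hx
    have h3 : (x ^ 2) ^ 3 ≤ (6 * |A|) ^ 3 := pow_le_pow_left₀ (by positivity) hx 3
    have h4 : ((x.natAbs ^ 6 : ℕ) : ℤ) ≤ ((54 * H : ℕ) : ℤ) := by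
      have e2 : ((x.natAbs ^ 6 : ℕ) : ℤ) = (x ^ 2) ^ 3 := by
        push_cast
        rw [← pow_mul]
        have : |x| ^ 6 = x ^ 6 := Even.pow_abs (by decide) x
        exact this
      rw [e2]
      push_cast
      have e3 : (6 * |A|) ^ 3 = 54 * (4 * |A| ^ 3) := by ring
      rw [e3] at h3
      linarith
    exact_mod_cast h4
  have ha4 : 0 ≤ a ^ 2 := by positivity
  have hb4 : 0 ≤ b ^ 2 := by positivity
  exact ⟨key a (by linarith), key b (by linarith)⟩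

theorem par2_of (h : Pool.Agent.W307.RT.ISO) : Pool.Agent.K6.H34.TT.PAR2 := by
  refine ⟨54, F2, fun H => ⟨?_, ?_⟩⟩
  · intro c hc c' hc' hcc
    rw [Finset.mem_coe] at hc hc'
    simp only [Fam, Finset.mem_filter] at hc hc'
    obtain ⟨-, hD, -, -, -, hT⟩ := hc
    obtain ⟨-, hD', -, -, -, hT'⟩ := hc'
    have r := F2_rel (core2 hD hT)
    have r' := F2_rel (core2 hD' hT')
    change Rel2 c (F2 c) at r
    change Rel2 c' (F2 c') at r'
    rw [← hcc] at r'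
    exact rel2_unique r r'
  · intro c hc
    simp only [Fam, Finset.mem_filter] at hc
    obtain ⟨-, hD, hH, -, -, hT⟩ := hc
    have r := F2_rel (core2 hD hT)
    change Rel2 c (F2 c) at r
    obtain ⟨hb1, hb2⟩ := rel2_bound (A := c.1) (B := c.2) r hH
    set ab := F2 c with hab
    clear_value ab
    obtain ⟨A, B⟩ := c
    obtain ⟨a, b⟩ := ab
    obtain ⟨e, ha0, hb0, hne, he, hA, hB⟩ := r
    change 3 * e = -(a + b) at he
    change 3 * A = -(a ^ 2 - a * b + b ^ 2) at hA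
    change 27 * B = (a + b) * (2 * a - b) * (2 * b - a) at hB
    refine ⟨ha0, hb0, hne, hb1, hb2, ?_⟩
    have heq : (e : ℚ) = -((a : ℚ) + b) / 3 := by
      have : (3 : ℚ) * e = -((a : ℚ) + (b : ℚ)) := by exact_mod_cast he
      linarith
    have hAq : (A : ℚ) = -((a : ℚ) ^ 2 - (a : ℚ) * (b : ℚ) + (b : ℚ) ^ 2) / 3 := by
      have : (3 : ℚ) * A = -((a : ℚ) ^ 2 - (a : ℚ) * (b : ℚ) + (b : ℚ) ^ 2) := by
        exact_mod_cast hA
      linarith
    have hBq : (B : ℚ) = (((a : ℚ) + (b : ℚ)) * (2 * (a : ℚ) - (b : ℚ)) *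
        (2 * (b : ℚ) - (a : ℚ))) / 27 := by
      have : (27 : ℚ) * B = (((a : ℚ) + (b : ℚ)) * (2 * (a : ℚ) - (b : ℚ)) *
        (2 * (b : ℚ) - (a : ℚ))) := by exact_mod_cast hB
      linarith
    obtain ⟨φ⟩ := h 0 A B e 1 one_ne_zero
    have hW : (⟨0, ((0 : ℚ) + 3 * e) / (1 : ℚ) ^ 2, 0,
        ((A : ℚ) + 2 * e * 0 + 3 * (e : ℚ) ^ 2) / (1 : ℚ) ^ 4,
        ((B : ℚ) + e * A + (e : ℚ) ^ 2 * 0 + (e : ℚ) ^ 3) / (1 : ℚ) ^ 6⟩ : WeierstrassCurve ℚ)
        = EAB a b := by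
      unfold EAB
      simp only [WeierstrassCurve.mk.injEq, true_and]
      refine ⟨?_, ?_, ?_⟩
      · rw [heq]; ring
      · rw [heq, hAq]; ring
      · rw [heq, hAq, hBq]; ring
    rw [hW] at φ
    change Module.finrank ℤ (E A B).toAffine.Point = Module.finrank ℤ (EAB a b).toAffine.Point
    exact LinearEquiv.finrank_eq φ.toIntLinearEquiv

theorem par2 : Pool.Agent.K6.H34.TT.PAR2 := par2_of Pool.Agent.W261.RT.iso

end Pool.Agent.K6.H35.TT
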